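import Mathlib

/-!
The `n × n × n` tic-tac-toe board, its winning lines, and the statement that the second player
forces a strong draw.
-/

namespace Pool.Agent.MP_c0c4a4_co

/-- A cell of the `n × n × n` board. -/
abbrev Cell (n : ℕ) := Fin 3 → Fin n

/-- The cell number `i` of the line with data `a`, `t`: coordinate `j` is the constant `a j` if
`t j = 0`, it is `i` if `t j = 1`, and it is `Fin.rev i` (that is `n - 1 - i`) if `t j = 2`. -/
def lineCell {n : ℕ} (a : Cell n) (t : Fin 3 → Fin 3) (i : Fin n) : Cell n :=
  fun j => if t j = 0 then a j else if t j = 1 then i else Fin.rev i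

/-- `L` is a winning line: the set of cells `lineCell a t i`, where `i` runs over `Fin n` and not
all three coordinates are constant. -/
def IsWinningLine {n : ℕ} (L : Set (Cell n)) : Prop :=
  ∃ (a : Cell n) (t : Fin 3 → Fin 3), (∃ j, t j ≠ 0) ∧ L = Set.range (lineCell a t)

/-- The cells claimed by the first player in the play `l` (the list of all moves in order; the
first player makes the moves number `0, 2, 4, …`). -/
def firstCells {n : ℕ} (l : List (Cell n)) : Set (Cell n) :=
  {c | ∃ m : ℕ, Even m ∧ l[m]? = some c}

/-- `l` is a finished or unfinished play (a list of distinct cells) in which every move of the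
second player (the moves number `1, 3, 5, …`) is the one that `σ` prescribes for the moves made
before it. -/
def IsPlayAgainst {n : ℕ} (σ : List (Cell n) → Cell n) (l : List (Cell n)) : Prop :=
  l.Nodup ∧ ∀ k : ℕ, Odd k → ∀ c : Cell n, l[k]? = some c → c = σ (l.take k)

/-- The second player forces a strong draw in the `n × n × n` game: there is a strategy `σ` for
the second player which always prescribes an unclaimed cell when there is one, and such that in
no play against `σ` does the first player ever own all cells of a winning line. -/
def SecondForcesStrongDraw (n : ℕ) : Prop :=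
  ∃ σ : List (Cell n) → Cell n, ∀ l : List (Cell n), IsPlayAgainst σ l →
    (Odd l.length → (∃ c, c ∉ l) → σ l ∉ l) ∧
      ∀ L : Set (Cell n), IsWinningLine L → ¬ L ⊆ firstCells l

end Pool.Agent.MP_c0c4a4_co
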