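import Mathlib

/-!
Decomposition trees for blocking strategies of the second player, and the passage from an
invariant to a strategy given as a function of the history of the play.
-/

namespace Pool.Agent.MP_c0c4a4_co

/-- Trees describing a blocking strategy. `nil`, `pair`, `reg` build a list of independent
regions; `stop`, `plan` build the list of plans of one region. -/
inductive T where
  | nil : T
  | stop : T
  | pair (u v : ℕ) (r : T) : T
  | reg (p r : T) : T
  | plan (x y : ℕ) (s r : T) : T

namespace T

/-- bit mask of the cells of a list of regions, or of a list of plans -/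
def cm : T → ℕ
  | nil => 0
  | stop => 0
  | pair u v r => 2 ^ u ||| (2 ^ v ||| cm r)
  | reg p r => cm p ||| cm r
  | plan x _ _ r => 2 ^ x ||| cm r

/-- well-formedness; the Boolean says whether a list of regions is expected -/
def wf : Bool → ℕ → T → Bool
  | true, _, nil => true
  | false, _, stop => true
  | true, C, pair u v r =>
      (!(u == v)) && (!(Nat.testBit (cm r) u)) && (!(Nat.testBit (cm r) v)) && wf true C r
  | true, C, reg p r => ((cm p &&& cm r) == 0) && wf false (cm p) p && wf true C r
  | false, C, plan x y s r =>
      (!(x == y)) && Nat.testBit C x && Nat.testBit C y && ((cm s ||| C) == C) &&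
        (!(Nat.testBit (cm s) x)) && (!(Nat.testBit (cm s) y)) &&
        (!(Nat.testBit (cm r) x)) && wf true 0 s && wf false C r
  | _, _, _ => false

/-- is the line with mask `L` blocked -/
def blocks (L : ℕ) : T → Bool
  | nil => false
  | stop => true
  | pair u v r => (Nat.testBit L u && Nat.testBit L v) || blocks L r
  | reg p r => ((!((cm p &&& L) == 0)) && blocks L p) || blocks L r
  | plan _ y s r => (Nat.testBit L y || blocks L s) && blocks L r

/-- no cell of the mask `m` is claimed -/
def Untouched (M B : Finset ℕ) (m : ℕ) : Prop :=
  ∀ c, Nat.testBit m c = true → c ∉ M ∧ c ∉ B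

/-- the state of a pair -/
def PairInv (M B : Finset ℕ) (u v : ℕ) : Prop :=
  (u ∉ M ∧ u ∉ B ∧ v ∉ M ∧ v ∉ B) ∨ (u ∈ M ∧ v ∈ B) ∨ (v ∈ M ∧ u ∈ B)

/-- the invariant: `M` first player's cells, `B` second player's cells -/
def inv (M B : Finset ℕ) : T → Prop
  | nil => True
  | stop => False
  | pair u v r => PairInv M B u v ∧ inv M B r
  | reg p r => (Untouched M B (cm p) ∨ inv M B p) ∧ inv M B r
  | plan x y s r => (x ∈ M ∧ y ∈ B ∧ inv M B s) ∨ inv M B r

lemma testBit_or_iff (a b c : ℕ) :
    Nat.testBit (a ||| b) c = true ↔ (Nat.testBit a c = true ∨ Nat.testBit b c = true) := by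
  rw [Nat.testBit_or, Bool.or_eq_true]

lemma testBit_and_iff (a b c : ℕ) :
    Nat.testBit (a &&& b) c = true ↔ (Nat.testBit a c = true ∧ Nat.testBit b c = true) := by
  rw [Nat.testBit_and, Bool.and_eq_true]

lemma testBit_pow_iff (a c : ℕ) : Nat.testBit (2 ^ a) c = true ↔ a = c := by
  rw [Nat.testBit_two_pow]
  simp

lemma exists_testBit {a : ℕ} (h : a ≠ 0) : ∃ c, Nat.testBit a c = true :=
  Nat.exists_testBit_of_ne_zero h

lemma sub_of_or_eq {a C c : ℕ} (h : a ||| C = C) (hc : Nat.testBit a c = true) :
    Nat.testBit C c = true := by
  rw [← h, testBit_or_iff]; exact Or.inl hc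

lemma disj_of_and_eq {a b c : ℕ} (h : a &&& b = 0) (ha : Nat.testBit a c = true)
    (hb : Nat.testBit b c = true) : False := by
  have : Nat.testBit (a &&& b) c = true := (testBit_and_iff _ _ _).2 ⟨ha, hb⟩
  rw [h] at this
  simp at this

/-- unfolding of well-formedness -/
lemma wf_pair {C u v : ℕ} {r : T} (h : wf true C (pair u v r) = true) :
    u ≠ v ∧ ¬ Nat.testBit (cm r) u = true ∧ ¬ Nat.testBit (cm r) v = true ∧ wf true C r = true := by
  simp only [wf, Bool.and_eq_true, Bool.not_eq_true', beq_eq_false_iff_ne] at h
  obtain ⟨⟨⟨h1, h2⟩, h3⟩, h4⟩ := h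
  exact ⟨h1, by simp [h2], by simp [h3], h4⟩

lemma wf_reg {C : ℕ} {p r : T} (h : wf true C (reg p r) = true) :
    cm p &&& cm r = 0 ∧ wf false (cm p) p = true ∧ wf true C r = true := by
  simp only [wf, Bool.and_eq_true, beq_iff_eq] at h
  exact ⟨h.1.1, h.1.2, h.2⟩

lemma wf_plan {C x y : ℕ} {s r : T} (h : wf false C (plan x y s r) = true) :
    x ≠ y ∧ Nat.testBit C x = true ∧ Nat.testBit C y = true ∧ cm s ||| C = C ∧
      ¬ Nat.testBit (cm s) x = true ∧ ¬ Nat.testBit (cm s) y = true ∧
      ¬ Nat.testBit (cm r) x = true ∧ wf true 0 s = true ∧ wf false C r = true := by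
  simp only [wf, Bool.and_eq_true, Bool.not_eq_true', beq_eq_false_iff_ne, beq_iff_eq] at h
  obtain ⟨⟨⟨⟨⟨⟨⟨⟨h1, h2⟩, h3⟩, h4⟩, h5⟩, h6⟩, h7⟩, h8⟩, h9⟩ := h
  exact ⟨h1, h2, h3, h4, by simp [h5], by simp [h6], by simp [h7], h8, h9⟩

/-- the mask on which the invariant of a tree depends -/
def dom : Bool → ℕ → T → ℕ
  | true, _, t => cm t
  | false, C, _ => C

/-- the invariant only depends on the cells of the tree -/
lemma inv_congr : ∀ (t : T) (b : Bool) (C : ℕ) (M B M' B' : Finset ℕ), wf b C t = true →
    (∀ c, Nat.testBit (dom b C t) c = true → ((c ∈ M ↔ c ∈ M') ∧ (c ∈ B ↔ c ∈ B'))) →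
    inv M B t → inv M' B' t := by
  intro t
  induction t with
  | nil => intro b C M B M' B' _ _ _; trivial
  | stop => intro b C M B M' B' _ _ h; exact h.elim
  | pair u v r ih =>
    intro b C M B M' B' hwf hc h
    cases b with
    | false => simp [wf] at hwf
    | true =>
      obtain ⟨huv, hu, hv, hr⟩ := wf_pair hwf
      simp only [dom, cm] at hc
      have hcu := hc u (by rw [testBit_or_iff, testBit_pow_iff]; exact Or.inl rfl)
      have hcv := hc v (by
        rw [testBit_or_iff, testBit_or_iff, testBit_pow_iff, testBit_pow_iff]
        exact Or.inr (Or.inl rfl))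
      refine ⟨?_, ih true C M B M' B' hr (fun c h' => hc c ?_) h.2⟩
      · have h1 := h.1
        unfold PairInv at h1 ⊢
        rw [← hcu.1, ← hcu.2, ← hcv.1, ← hcv.2]
        exact h1
      · rw [testBit_or_iff, testBit_or_iff]; exact Or.inr (Or.inr h')
  | reg p r ihp ihr =>
    intro b C M B M' B' hwf hc h
    cases b with
    | false => simp [wf] at hwf
    | true =>
      obtain ⟨hd, hp, hr⟩ := wf_reg hwf
      simp only [dom, cm] at hc
      refine ⟨?_, ihr true C M B M' B' hr (fun c h' => hc c ?_) h.2⟩
      · rcases h.1 with h1 | h1
        · left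
          intro c hcc
          have h2 := hc c (by rw [testBit_or_iff]; exact Or.inl hcc)
          rw [← h2.1, ← h2.2]
          exact h1 c hcc
        · right
          exact ihp false (cm p) M B M' B' hp
            (fun c h' => hc c (by rw [testBit_or_iff]; exact Or.inl h')) h1
      · rw [testBit_or_iff]; exact Or.inr h'
  | plan x y s r ihs ihr =>
    intro b C M B M' B' hwf hc h
    cases b with
    | true => simp [wf] at hwf
    | false =>
      obtain ⟨hxy, hx, hy, hs, hsx, hsy, hrx, hws, hwr⟩ := wf_plan hwf
      simp only [dom] at hc
      rcases h with ⟨h1, h2, h3⟩ | h1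
      · left
        refine ⟨(hc x hx).1.1 h1, (hc y hy).2.1 h2, ?_⟩
        exact ihs true 0 M B M' B' hws (fun c h' => hc c (sub_of_or_eq hs h')) h3
      · right
        exact ihr false C M B M' B' hwr hc h1

/-- the invariant of a list of regions holds when nothing is claimed there -/
lemma inv_of_untouched : ∀ (t : T) (C : ℕ) (M B : Finset ℕ), wf true C t = true →
    Untouched M B (cm t) → inv M B t := by
  intro t
  induction t with
  | nil => intro C M B _ _; trivial
  | stop => intro C M B h _; simp [wf] at h
  | pair u v r ih =>
    intro C M B hwf hU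
    obtain ⟨huv, hu, hv, hr⟩ := wf_pair hwf
    simp only [cm] at hU
    have hcu := hU u (by rw [testBit_or_iff, testBit_pow_iff]; exact Or.inl rfl)
    have hcv := hU v (by
      rw [testBit_or_iff, testBit_or_iff, testBit_pow_iff, testBit_pow_iff]
      exact Or.inr (Or.inl rfl))
    refine ⟨Or.inl ⟨hcu.1, hcu.2, hcv.1, hcv.2⟩, ih C M B hr (fun c h' => hU c ?_)⟩
    rw [testBit_or_iff, testBit_or_iff]; exact Or.inr (Or.inr h')
  | reg p r ihp ihr =>
    intro C M B hwf hU
    obtain ⟨hd, hp, hr⟩ := wf_reg hwf
    simp only [cm] at hU
    refine ⟨Or.inl (fun c h' => hU c ?_), ihr C M B hr (fun c h' => hU c ?_)⟩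
    · rw [testBit_or_iff]; exact Or.inl h'
    · rw [testBit_or_iff]; exact Or.inr h'
  | plan x y s r ihs ihr =>
    intro C M B h _
    simp [wf] at h

/-- answer to a first move in an unclaimed region -/
lemma step_untouched : ∀ (t : T) (C : ℕ) (M B : Finset ℕ) (z : ℕ), wf false C t = true →
    Untouched M B C → Nat.testBit (cm t) z = true →
    ∃ y, y ≠ z ∧ Nat.testBit C y = true ∧ inv (insert z M) (insert y B) t := by
  intro t
  induction t with
  | nil => intro C M B z h; simp [wf] at h
  | stop => intro C M B z _ _ h; simp [cm] at h
  | pair u v r ih => intro C M B z h; simp [wf] at h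
  | reg p r ihp ihr => intro C M B z h; simp [wf] at h
  | plan x y s r ihs ihr =>
    intro C M B z hwf hU hz
    obtain ⟨hxy, hx, hy, hs, hsx, hsy, hrx, hws, hwr⟩ := wf_plan hwf
    simp only [cm] at hz
    rw [testBit_or_iff, testBit_pow_iff] at hz
    rcases hz with rfl | hz
    · refine ⟨y, hxy.symm, hy, Or.inl ⟨Finset.mem_insert_self _ _, Finset.mem_insert_self _ _, ?_⟩⟩
      have h0 : inv M B s := inv_of_untouched s 0 M B hws (fun c h' => hU c (sub_of_or_eq hs h'))
      refine inv_congr s true 0 M B _ _ hws (fun c h' => ?_) h0
      simp only [dom] at h'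
      have hcx : c ≠ x := by rintro rfl; exact hsx h'
      have hcy : c ≠ y := by rintro rfl; exact hsy h'
      simp [hcx, hcy]
    · obtain ⟨y', h1, h2, h3⟩ := ihr C M B z hwr hU hz
      exact ⟨y', h1, h2, Or.inr h3⟩

/-- one round of play -/
lemma step : ∀ (t : T) (b : Bool) (C : ℕ) (M B : Finset ℕ) (z : ℕ), wf b C t = true →
    (∀ c, c ∈ M → c ∉ B) → z ∉ M → z ∉ B → inv M B t →
    (∃ y, y ≠ z ∧ y ∉ M ∧ y ∉ B ∧ Nat.testBit (dom b C t) y = true ∧
      Nat.testBit (dom b C t) z = true ∧ inv (insert z M) (insert y B) t) ∨
    inv (insert z M) B t := by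
  intro t
  induction t with
  | nil => intro b C M B z _ _ _ _ _; right; trivial
  | stop => intro b C M B z _ _ _ _ h; exact h.elim
  | pair u v r ih =>
    intro b C M B z hwf hD hzM hzB h
    cases b with
    | false => simp [wf] at hwf
    | true =>
      obtain ⟨huv, hu, hv, hr⟩ := wf_pair hwf
      simp only [dom, cm]
      have hU : Nat.testBit (2 ^ u ||| (2 ^ v ||| cm r)) u = true := by
        rw [testBit_or_iff, testBit_pow_iff]; exact Or.inl rfl
      have hV : Nat.testBit (2 ^ u ||| (2 ^ v ||| cm r)) v = true := by
        rw [testBit_or_iff, testBit_or_iff, testBit_pow_iff, testBit_pow_iff]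
        exact Or.inr (Or.inl rfl)
      by_cases hzu : z = u
      · subst hzu
        left
        rcases h.1 with h1 | h1 | h1
        · refine ⟨v, huv.symm, h1.2.2.1, h1.2.2.2, hV, hU, ?_, ?_⟩
          · exact Or.inr (Or.inl ⟨Finset.mem_insert_self _ _, Finset.mem_insert_self _ _⟩)
          · refine inv_congr r true C M B _ _ hr (fun c h' => ?_) h.2
            simp only [dom] at h'
            have hcx : c ≠ z := by rintro rfl; exact hu h'
            have hcy : c ≠ v := by rintro rfl; exact hv h'
            simp [hcx, hcy]
        · exact (hzM h1.1).elim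
        · exact (hzB h1.2).elim
      · by_cases hzv : z = v
        · subst hzv
          left
          rcases h.1 with h1 | h1 | h1
          · refine ⟨u, huv, h1.1, h1.2.1, hU, hV, ?_, ?_⟩
            · exact Or.inr (Or.inr ⟨Finset.mem_insert_self _ _, Finset.mem_insert_self _ _⟩)
            · refine inv_congr r true C M B _ _ hr (fun c h' => ?_) h.2
              simp only [dom] at h'
              have hcx : c ≠ z := by rintro rfl; exact hv h'
              have hcy : c ≠ u := by rintro rfl; exact hu h'
              simp [hcx, hcy]
          · exact (hzB h1.2).elim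
          · exact (hzM h1.1).elim
        · rcases ih true C M B z hr hD hzM hzB h.2 with ⟨y, h1, h2, h3, h4, h5, h6⟩ | h1
          · left
            simp only [dom] at h4 h5
            have hyu : y ≠ u := by rintro rfl; exact hu h4
            have hyv : y ≠ v := by rintro rfl; exact hv h4
            refine ⟨y, h1, h2, h3, ?_, ?_, ?_, h6⟩
            · rw [testBit_or_iff, testBit_or_iff]; exact Or.inr (Or.inr h4)
            · rw [testBit_or_iff, testBit_or_iff]; exact Or.inr (Or.inr h5)
            · have h7 := h.1
              unfold PairInv at h7 ⊢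
              simp only [Finset.mem_insert]
              have e1 : ¬ u = z := fun e => hzu e.symm
              have e2 : ¬ v = z := fun e => hzv e.symm
              have e3 : ¬ u = y := fun e => hyu e.symm
              have e4 : ¬ v = y := fun e => hyv e.symm
              simp only [e1, e2, e3, e4, false_or]
              exact h7
          · right
            refine ⟨?_, h1⟩
            have h7 := h.1
            unfold PairInv at h7 ⊢
            simp only [Finset.mem_insert]
            have e1 : ¬ u = z := fun e => hzu e.symm
            have e2 : ¬ v = z := fun e => hzv e.symm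
            simp only [e1, e2, false_or]
            exact h7
  | reg p r ihp ihr =>
    intro b C M B z hwf hD hzM hzB h
    cases b with
    | false => simp [wf] at hwf
    | true =>
      obtain ⟨hd, hp, hr⟩ := wf_reg hwf
      simp only [dom, cm]
      by_cases hz : Nat.testBit (cm p) z = true
      · have hzr : ¬ Nat.testBit (cm r) z = true := fun h' => disj_of_and_eq hd hz h'
        have key : ∀ y, Nat.testBit (cm p) y = true → inv (insert z M) (insert y B) r := by
          intro y hy
          refine inv_congr r true C M B _ _ hr (fun c h' => ?_) h.2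
          simp only [dom] at h'
          have hcx : c ≠ z := by rintro rfl; exact hzr h'
          have hcy : c ≠ y := by rintro rfl; exact disj_of_and_eq hd hy h'
          simp [hcx, hcy]
        rcases h.1 with h1 | h1
        · obtain ⟨y, hy1, hy2, hy3⟩ := step_untouched p (cm p) M B z hp h1 hz
          left
          refine ⟨y, hy1, (h1 y hy2).1, (h1 y hy2).2, ?_, ?_, Or.inr hy3, key y hy2⟩
          · rw [testBit_or_iff]; exact Or.inl hy2
          · rw [testBit_or_iff]; exact Or.inl hz
        · rcases ihp false (cm p) M B z hp hD hzM hzB h1 with ⟨y, g1, g2, g3, g4, g5, g6⟩ | g1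
          · simp only [dom] at g4 g5
            left
            refine ⟨y, g1, g2, g3, ?_, ?_, Or.inr g6, key y g4⟩
            · rw [testBit_or_iff]; exact Or.inl g4
            · rw [testBit_or_iff]; exact Or.inl g5
          · right
            refine ⟨Or.inr g1, ?_⟩
            refine inv_congr r true C M B _ _ hr (fun c h' => ?_) h.2
            simp only [dom] at h'
            have hcx : c ≠ z := by rintro rfl; exact hzr h'
            simp [hcx]
      · rcases ihr true C M B z hr hD hzM hzB h.2 with ⟨y, g1, g2, g3, g4, g5, g6⟩ | g1
        · simp only [dom] at g4 g5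
          left
          refine ⟨y, g1, g2, g3, ?_, ?_, ?_, g6⟩
          · rw [testBit_or_iff]; exact Or.inr g4
          · rw [testBit_or_iff]; exact Or.inr g5
          · rcases h.1 with h1 | h1
            · left
              intro c hc
              have hcx : c ≠ z := by rintro rfl; exact hz hc
              have hcy : c ≠ y := by rintro rfl; exact disj_of_and_eq hd hc g4
              simp only [Finset.mem_insert, hcx, hcy, false_or]
              exact h1 c hc
            · right
              refine inv_congr p false (cm p) M B _ _ hp (fun c h' => ?_) h1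
              simp only [dom] at h'
              have hcx : c ≠ z := by rintro rfl; exact hz h'
              have hcy : c ≠ y := by rintro rfl; exact disj_of_and_eq hd h' g4
              simp [hcx, hcy]
        · right
          refine ⟨?_, g1⟩
          rcases h.1 with h1 | h1
          · left
            intro c hc
            have hcx : c ≠ z := by rintro rfl; exact hz hc
            simp only [Finset.mem_insert, hcx, false_or]
            exact h1 c hc
          · right
            refine inv_congr p false (cm p) M B _ _ hp (fun c h' => ?_) h1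
            simp only [dom] at h'
            have hcx : c ≠ z := by rintro rfl; exact hz h'
            simp [hcx]
  | plan x y s r ihs ihr =>
    intro b C M B z hwf hD hzM hzB h
    cases b with
    | true => simp [wf] at hwf
    | false =>
      obtain ⟨hxy, hx, hy, hs, hsx, hsy, hrx, hws, hwr⟩ := wf_plan hwf
      simp only [dom]
      rcases h with ⟨h1, h2, h3⟩ | h1
      · rcases ihs true 0 M B z hws hD hzM hzB h3 with ⟨w, g1, g2, g3, g4, g5, g6⟩ | g1
        · simp only [dom] at g4 g5
          left
          exact ⟨w, g1, g2, g3, sub_of_or_eq hs g4, sub_of_or_eq hs g5,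
            Or.inl ⟨Finset.mem_insert_of_mem h1, Finset.mem_insert_of_mem h2, g6⟩⟩
        · right
          exact Or.inl ⟨Finset.mem_insert_of_mem h1, h2, g1⟩
      · rcases ihr false C M B z hwr hD hzM hzB h1 with ⟨w, g1, g2, g3, g4, g5, g6⟩ | g1
        · simp only [dom] at g4 g5
          left
          exact ⟨w, g1, g2, g3, g4, g5, Or.inr g6⟩
        · right
          exact Or.inr g1

/-- a blocked line is never completely owned by the first player -/
lemma blocks_sound : ∀ (t : T) (M B : Finset ℕ) (L : ℕ), (∀ c, c ∈ M → c ∉ B) →
    inv M B t → blocks L t = true → ∃ c, Nat.testBit L c = true ∧ c ∉ M := by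
  intro t
  induction t with
  | nil => intro M B L _ _ h; simp [blocks] at h
  | stop => intro M B L _ h _; exact h.elim
  | pair u v r ih =>
    intro M B L hD h hb
    simp only [blocks, Bool.or_eq_true, Bool.and_eq_true] at hb
    rcases hb with ⟨h1, h2⟩ | hb
    · rcases h.1 with g | g | g
      · exact ⟨u, h1, g.1⟩
      · exact ⟨v, h2, fun hv => hD v hv g.2⟩
      · exact ⟨u, h1, fun hu => hD u hu g.2⟩
    · exact ih M B L hD h.2 hb
  | reg p r ihp ihr =>
    intro M B L hD h hb
    simp only [blocks, Bool.or_eq_true, Bool.and_eq_true, Bool.not_eq_true',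
      beq_eq_false_iff_ne] at hb
    rcases hb with ⟨h1, h2⟩ | hb
    · rcases h.1 with g | g
      · obtain ⟨c, hc⟩ := exists_testBit h1
        rw [testBit_and_iff] at hc
        exact ⟨c, hc.2, (g c hc.1).1⟩
      · exact ihp M B L hD g h2
    · exact ihr M B L hD h.2 hb
  | plan x y s r ihs ihr =>
    intro M B L hD h hb
    simp only [blocks, Bool.or_eq_true, Bool.and_eq_true] at hb
    rcases h with ⟨h1, h2, h3⟩ | h1
    · rcases hb.1 with g | g
      · exact ⟨y, g, fun hy => hD y hy h2⟩
      · exact ihs M B L hD h3 g
    · exact ihr M B L hD h1 hb.2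

end T

/-- From an invariant of positions to a strategy, given as a function of the history. `P M B`
says: with first player's cells `M` and (some of the) second player's cells `B`, first player
to move, the position is safe. -/
theorem exists_strategy {α : Type*} [DecidableEq α] [Inhabited α] (P : Finset α → Finset α → Prop)
    (h0 : P ∅ ∅)
    (hstep : ∀ (M B : Finset α) (x : α), P M B → x ∉ M → x ∉ B →
      (∃ y, y ≠ x ∧ y ∉ M ∧ y ∉ B ∧ P (insert x M) (insert y B)) ∨ P (insert x M) B) :
    ∃ σ : List α → α, ∀ l : List α, l.Nodup →
      (∀ k : ℕ, Odd k → ∀ c : α, l[k]? = some c → c = σ (l.take k)) →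
      (Odd l.length → (∃ c, c ∉ l) → σ l ∉ l) ∧
      ∃ M B : Finset α, (∀ c, c ∈ M ↔ ∃ m : ℕ, Even m ∧ l[m]? = some c) ∧ P M B := by
  classical
  -- cells of the two players in a history
  let ev : List α → Finset α := fun l => l.toFinset.filter (fun c => ∃ m : ℕ, Even m ∧ l[m]? = some c)
  let od : List α → Finset α := fun l => l.toFinset.filter (fun c => ∃ m : ℕ, Odd m ∧ l[m]? = some c)
  have hev : ∀ l c, c ∈ ev l ↔ ∃ m : ℕ, Even m ∧ l[m]? = some c := by
    intro l c
    simp only [ev, Finset.mem_filter, List.mem_toFinset]
    constructor
    · exact fun h => h.2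
    · rintro ⟨m, hm, h⟩
      exact ⟨List.mem_of_getElem? h, m, hm, h⟩
  have hod : ∀ l c, c ∈ od l ↔ ∃ m : ℕ, Odd m ∧ l[m]? = some c := by
    intro l c
    simp only [od, Finset.mem_filter, List.mem_toFinset]
    constructor
    · exact fun h => h.2
    · rintro ⟨m, hm, h⟩
      exact ⟨List.mem_of_getElem? h, m, hm, h⟩
  let good : List α → α → Prop := fun l y =>
    y ∉ l ∧ ∃ B, (∀ c ∈ B, c ∈ insert y (od l)) ∧ P (ev l) B
  let σ : List α → α := fun l =>
    if h : ∃ y, good l y then Classical.choose h
    else if h' : ∃ y, y ∉ l then Classical.choose h' else default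
  have hσ : ∀ l y, good l y → good l (σ l) := by
    intro l y h
    have h' : ∃ y, good l y := ⟨y, h⟩
    simp only [σ, dif_pos h']
    exact Classical.choose_spec h'
  have hσ2 : ∀ l, (∃ c, c ∉ l) → σ l ∉ l := by
    intro l h
    by_cases h' : ∃ y, good l y
    · simp only [σ, dif_pos h']
      exact (Classical.choose_spec h').1
    · simp only [σ, dif_neg h', dif_pos h]
      exact Classical.choose_spec h
  refine ⟨σ, ?_⟩
  -- main induction on the length of the history
  have main : ∀ n : ℕ, ∀ l : List α, l.length = n → l.Nodup →
      (∀ k : ℕ, Odd k → ∀ c : α, l[k]? = some c → c = σ (l.take k)) →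
      (Even n → ∃ B, (∀ c ∈ B, c ∈ od l) ∧ P (ev l) B) ∧
      (Odd n → (∃ B, (∀ c ∈ B, c ∈ od l) ∧ P (ev l) B) ∨
        ∃ y, y ∉ l ∧ ∃ B, (∀ c ∈ B, c ∈ insert y (od l)) ∧ P (ev l) B) := by
    intro n
    induction n with
    | zero =>
      intro l hl _ _
      have : l = [] := List.length_eq_zero_iff.1 hl
      subst this
      refine ⟨fun _ => ⟨∅, by simp, ?_⟩, fun h => by simp at h⟩
      have : ev [] = ∅ := by
        ext c; rw [hev]; simp
      rw [this]; exact h0
    | succ n ih =>
      intro l hl hnd hfol
      -- split off the last move
      obtain ⟨l', x, rfl⟩ : ∃ l' x, l = l' ++ [x] := by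
        have hne : l ≠ [] := by rintro rfl; simp at hl
        exact ⟨l.dropLast, l.getLast hne, (List.dropLast_append_getLast hne).symm⟩
      have hl' : l'.length = n := by simpa using hl
      have hnd' : l'.Nodup := (List.nodup_append.1 hnd).1
      have hx : x ∉ l' := by
        intro h
        have := (List.nodup_append.1 hnd).2.2 x h x (by simp)
        exact this rfl
      have hfol' : ∀ k : ℕ, Odd k → ∀ c : α, l'[k]? = some c → c = σ (l'.take k) := by
        intro k hk c hc
        have hlt : k < l'.length := by
          rcases Nat.lt_or_ge k l'.length with h | h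
          · exact h
          · rw [List.getElem?_eq_none h] at hc; simp at hc
        have := hfol k hk c (by rw [List.getElem?_append_left hlt]; exact hc)
        rw [List.take_append_of_le_length hlt.le] at this
        exact this
      have IH := ih l' hl' hnd' hfol'
      have hget : ∀ m, (l' ++ [x])[m]? = if m < n then l'[m]? else if m = n then some x else none := by
        intro m
        split_ifs with h1 h2
        · rw [List.getElem?_append_left (by omega)]
        · subst h2
          rw [List.getElem?_append_right (by omega)]
          simp [hl']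
        · rw [List.getElem?_append_right (by omega)]
          rw [List.getElem?_eq_none]
          simp; omega
      have hget' : ∀ m, m < n ∨ l'[m]? = none := by
        intro m
        rcases Nat.lt_or_ge m n with h | h
        · exact Or.inl h
        · right; exact List.getElem?_eq_none (by omega)
      constructor
      · -- n + 1 even: the last move is the second player's
        intro hn
        have hodd : Odd n := by
          rcases Nat.even_or_odd n with h | h
          · exfalso
            rw [Nat.even_add_one] at hn
            exact hn h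
          · exact h
        have hxσ : x = σ l' := by
          have := hfol n hodd x (by rw [hget]; simp)
          rw [List.take_append_of_le_length (by omega), List.take_of_length_le (by omega)] at this
          exact this
        have hevx : ev (l' ++ [x]) = ev l' := by
          ext c
          rw [hev, hev]
          constructor
          · rintro ⟨m, hm, h⟩
            rw [hget] at h
            split_ifs at h with h1 h2
            · exact ⟨m, hm, h⟩
            · subst h2; exact absurd hm (Nat.not_even_iff_odd.2 hodd)
          · rintro ⟨m, hm, h⟩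
            refine ⟨m, hm, ?_⟩
            rcases hget' m with h1 | h1
            · rw [hget, if_pos h1]; exact h
            · rw [h1] at h; simp at h
        have hodx : ∀ c, c ∈ insert x (od l') → c ∈ od (l' ++ [x]) := by
          intro c hc
          rw [Finset.mem_insert] at hc
          rw [hod]
          rcases hc with rfl | hc
          · exact ⟨n, hodd, by rw [hget]; simp⟩
          · rw [hod] at hc
            obtain ⟨m, hm, h⟩ := hc
            refine ⟨m, hm, ?_⟩
            rcases hget' m with h1 | h1
            · rw [hget, if_pos h1]; exact h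
            · rw [h1] at h; simp at h
        rcases IH.2 hodd with ⟨B, hB, hP⟩ | ⟨y, hy, B, hB, hP⟩
        · refine ⟨B, fun c hc => hodx c (Finset.mem_insert_of_mem (hB c hc)), ?_⟩
          rw [hevx]; exact hP
        · have hg : good l' (σ l') := hσ l' y ⟨hy, B, hB, hP⟩
          obtain ⟨_, B', hB', hP'⟩ := hg
          refine ⟨B', fun c hc => hodx c ?_, ?_⟩
          · rw [hxσ]; exact hB' c hc
          · rw [hevx]; exact hP'
      · -- n + 1 odd: the last move is the first player's
        intro hn
        have heven : Even n := by
          rcases Nat.even_or_odd n with h | h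
          · exact h
          · exfalso
            rw [Nat.odd_add_one] at hn
            exact hn h
        obtain ⟨B, hB, hP⟩ := IH.1 heven
        have hevx : ev (l' ++ [x]) = insert x (ev l') := by
          ext c
          rw [Finset.mem_insert, hev, hev]
          constructor
          · rintro ⟨m, hm, h⟩
            rw [hget] at h
            split_ifs at h with h1 h2
            · exact Or.inr ⟨m, hm, h⟩
            · left; exact (Option.some.inj h).symm
          · rintro (rfl | ⟨m, hm, h⟩)
            · exact ⟨n, heven, by rw [hget]; simp⟩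
            · refine ⟨m, hm, ?_⟩
              rcases hget' m with h1 | h1
              · rw [hget, if_pos h1]; exact h
              · rw [h1] at h; simp at h
        have hodx : ∀ c, c ∈ od l' → c ∈ od (l' ++ [x]) := by
          intro c hc
          rw [hod] at hc ⊢
          obtain ⟨m, hm, h⟩ := hc
          refine ⟨m, hm, ?_⟩
          rcases hget' m with h1 | h1
          · rw [hget, if_pos h1]; exact h
          · rw [h1] at h; simp at h
        have hxM : x ∉ ev l' := by
          intro h
          rw [hev] at h
          obtain ⟨m, _, h⟩ := h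
          exact hx (List.mem_of_getElem? h)
        have hxB : x ∉ B := by
          intro h
          have := hB x h
          rw [hod] at this
          obtain ⟨m, _, h⟩ := this
          exact hx (List.mem_of_getElem? h)
        rw [hevx]
        rcases hstep (ev l') B x hP hxM hxB with ⟨y, hy1, hy2, hy3, hy4⟩ | h
        · by_cases hyo : y ∈ od l'
          · left
            refine ⟨insert y B, ?_, hy4⟩
            intro c hc
            rw [Finset.mem_insert] at hc
            rcases hc with rfl | hc
            · exact hodx _ hyo
            · exact hodx _ (hB c hc)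
          · right
            refine ⟨y, ?_, insert y B, ?_, hy4⟩
            · intro hyl
              rw [List.mem_append] at hyl
              rcases hyl with hyl | hyl
              · obtain ⟨m, hm, hmy⟩ := List.mem_iff_getElem.1 hyl
                rcases Nat.even_or_odd m with he | ho
                · exact hy2 ((hev _ _).2 ⟨m, he, by rw [List.getElem?_eq_getElem hm, hmy]⟩)
                · exact hyo ((hod _ _).2 ⟨m, ho, by rw [List.getElem?_eq_getElem hm, hmy]⟩)
              · simp at hyl; exact hy1 hyl
            · intro c hc
              rw [Finset.mem_insert] at hc ⊢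
              rcases hc with rfl | hc
              · exact Or.inl rfl
              · exact Or.inr (hodx _ (hB c hc))
        · left
          exact ⟨B, fun c hc => hodx _ (hB c hc), h⟩
  intro l hnd hfol
  refine ⟨fun _ h => hσ2 l h, ?_⟩
  have := main l.length l rfl hnd hfol
  rcases Nat.even_or_odd l.length with h | h
  · obtain ⟨B, _, hP⟩ := this.1 h
    exact ⟨ev l, B, hev l, hP⟩
  · rcases this.2 h with ⟨B, _, hP⟩ | ⟨y, _, B, _, hP⟩
    · exact ⟨ev l, B, hev l, hP⟩
    · exact ⟨ev l, B, hev l, hP⟩

end Pool.Agent.MP_c0c4a4_co
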