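import Mathlib
import Pool.Agent.MP_c0c4a4_co.Defs
import Pool.Agent.MP_c0c4a4_co.Framework

/-!
Numbering of the cells and the reduction of a strong draw to the check of a tree.
-/

namespace Pool.Agent.MP_c0c4a4_co

/-- the number of a cell -/
def code {n : ℕ} (c : Cell n) : ℕ := (c 0 : ℕ) * (n * n) + (c 1 : ℕ) * n + (c 2 : ℕ)

lemma code_lt {n : ℕ} (c : Cell n) : code c < n * n * n := by
  unfold code
  have h0 := (c 0).2
  have h1 := (c 1).2
  have h2 := (c 2).2
  nlinarith [Nat.mul_le_mul_right (n * n) (Nat.succ_le_of_lt h0),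
    Nat.mul_le_mul_right n (Nat.succ_le_of_lt h1)]

lemma code_injective {n : ℕ} : Function.Injective (code (n := n)) := by
  intro c d h
  unfold code at h
  have hn : 0 < n := Nat.pos_of_ne_zero (by rintro rfl; exact (c 0).elim0)
  have e2 : (c 2 : ℕ) = d 2 := by
    have := congrArg (fun z => z % n) h
    have hc : ((c 0 : ℕ) * (n * n) + (c 1 : ℕ) * n + (c 2 : ℕ)) % n = c 2 := by
      rw [show (c 0 : ℕ) * (n * n) + (c 1 : ℕ) * n + (c 2 : ℕ)
        = (c 2 : ℕ) + n * ((c 0 : ℕ) * n + c 1) by ring, Nat.add_mul_mod_self_left,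
        Nat.mod_eq_of_lt (c 2).2]
    have hd : ((d 0 : ℕ) * (n * n) + (d 1 : ℕ) * n + (d 2 : ℕ)) % n = d 2 := by
      rw [show (d 0 : ℕ) * (n * n) + (d 1 : ℕ) * n + (d 2 : ℕ)
        = (d 2 : ℕ) + n * ((d 0 : ℕ) * n + d 1) by ring, Nat.add_mul_mod_self_left,
        Nat.mod_eq_of_lt (d 2).2]
    exact hc.symm.trans (this.trans hd)
  have h' : (c 0 : ℕ) * n + c 1 = (d 0 : ℕ) * n + d 1 := by
    have : ((c 0 : ℕ) * n + c 1) * n = ((d 0 : ℕ) * n + d 1) * n := by
      have := h
      rw [e2] at this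
      nlinarith
    exact Nat.eq_of_mul_eq_mul_right hn this
  have e1 : (c 1 : ℕ) = d 1 := by
    have := congrArg (fun z => z % n) h'
    have hc : ((c 0 : ℕ) * n + (c 1 : ℕ)) % n = c 1 := by
      rw [Nat.add_comm, Nat.add_mul_mod_self_right, Nat.mod_eq_of_lt (c 1).2]
    have hd : ((d 0 : ℕ) * n + (d 1 : ℕ)) % n = d 1 := by
      rw [Nat.add_comm, Nat.add_mul_mod_self_right, Nat.mod_eq_of_lt (d 1).2]
    exact hc.symm.trans (this.trans hd)
  have e0 : (c 0 : ℕ) = d 0 := by
    rw [e1] at h'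
    exact Nat.eq_of_mul_eq_mul_right hn (by omega)
  funext j
  apply Fin.ext
  fin_cases j
  · exact e0
  · exact e1
  · exact e2

lemma code_surj {n : ℕ} {y : ℕ} (hy : y < n * n * n) : ∃ c : Cell n, code c = y := by
  have hn : 0 < n := Nat.pos_of_ne_zero (by rintro rfl; simp at hy)
  have hnn : 0 < n * n := Nat.mul_pos hn hn
  refine ⟨fun j => if j = 0 then ⟨y / (n * n), ?_⟩ else if j = 1 then
    ⟨(y % (n * n)) / n, ?_⟩ else ⟨(y % (n * n)) % n, Nat.mod_lt _ hn⟩, ?_⟩
  · rw [Nat.div_lt_iff_lt_mul hnn]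
    calc y < n * n * n := hy
      _ = n * (n * n) := by ring
  · rw [Nat.div_lt_iff_lt_mul hn]
    exact Nat.mod_lt _ hnn
  · unfold code
    simp only [if_true, Fin.isValue, one_ne_zero, if_false]
    have h2 : ¬ ((2 : Fin 3) = 0) := by decide
    have h21 : ¬ ((2 : Fin 3) = 1) := by decide
    simp only [h2, h21, if_false]
    have a1 := Nat.div_add_mod y (n * n)
    have a2 := Nat.div_add_mod (y % (n * n)) n
    calc y / (n * n) * (n * n) + y % (n * n) / n * n + y % (n * n) % n
        = n * n * (y / (n * n)) + (n * (y % (n * n) / n) + y % (n * n) % n) := by ring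
      _ = y := by rw [a2, a1]

/-- coordinate of the cell number `i` of a line -/
def gco (n t a i : ℕ) : ℕ :=
  match t with
  | 0 => a
  | 1 => i
  | _ => n - 1 - i

/-- mask of a line -/
def lmask (n a0 a1 a2 t0 t1 t2 : ℕ) : ℕ :=
  (List.range n).foldr
    (fun i m => 2 ^ (gco n t0 a0 i * (n * n) + gco n t1 a1 i * n + gco n t2 a2 i) ||| m) 0

lemma testBit_foldr (f : ℕ → ℕ) (l : List ℕ) (c : ℕ) :
    Nat.testBit (l.foldr (fun i m => 2 ^ (f i) ||| m) 0) c = true → ∃ i ∈ l, f i = c := by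
  induction l with
  | nil => intro h; simp at h
  | cons i l ih =>
    intro h
    rw [List.foldr_cons, T.testBit_or_iff, T.testBit_pow_iff] at h
    rcases h with h | h
    · exact ⟨i, by simp, h⟩
    · obtain ⟨j, hj, hj'⟩ := ih h
      exact ⟨j, List.mem_cons_of_mem _ hj, hj'⟩

/-- the check that every line is blocked -/
def allBlocked (n : ℕ) (F : T) : Bool :=
  (List.range 3).all fun t0 => (List.range 3).all fun t1 => (List.range 3).all fun t2 =>
    ((t0 + t1 + t2) == 0) ||
    ((List.range (match t0 with | 0 => n | _ => 1)).all fun a0 =>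
      (List.range (match t1 with | 0 => n | _ => 1)).all fun a1 =>
        (List.range (match t2 with | 0 => n | _ => 1)).all fun a2 =>
          T.blocks (lmask n a0 a1 a2 t0 t1 t2) F)

/-- the complete check -/
def treeOK (n : ℕ) (F : T) : Bool :=
  T.wf true 0 F && Nat.blt (T.cm F) (2 ^ (n * n * n)) && allBlocked n F

lemma allBlocked_spec {n : ℕ} {F : T} (h : allBlocked n F = true) (a : Cell n)
    (t : Fin 3 → Fin 3) (ht : ∃ j, t j ≠ 0) :
    T.blocks (lmask n (if (t 0 : ℕ) = 0 then a 0 else 0) (if (t 1 : ℕ) = 0 then a 1 else 0)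
      (if (t 2 : ℕ) = 0 then a 2 else 0) (t 0) (t 1) (t 2)) F = true := by
  unfold allBlocked at h
  rw [List.all_eq_true] at h
  have h1 := h (t 0) (List.mem_range.2 (t 0).2)
  rw [List.all_eq_true] at h1
  have h2 := h1 (t 1) (List.mem_range.2 (t 1).2)
  rw [List.all_eq_true] at h2
  have h3 := h2 (t 2) (List.mem_range.2 (t 2).2)
  rw [Bool.or_eq_true] at h3
  have hne : ¬ (((t 0 : ℕ) + (t 1 : ℕ) + (t 2 : ℕ)) == 0) = true := by
    intro h0
    rw [beq_iff_eq] at h0
    obtain ⟨j, hj⟩ := ht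
    apply hj
    apply Fin.ext
    fin_cases j
    · show ((t 0 : Fin 3) : ℕ) = 0; omega
    · show ((t 1 : Fin 3) : ℕ) = 0; omega
    · show ((t 2 : Fin 3) : ℕ) = 0; omega
  have h4 := h3.resolve_left hne
  have key : ∀ (s : ℕ) (x : Fin n), (if s = 0 then (x : ℕ) else 0) <
      (match s with | 0 => n | _ => 1) := by
    intro s x
    cases s with
    | zero => simp
    | succ s => simp
  rw [List.all_eq_true] at h4
  have h5 := h4 _ (List.mem_range.2 (key (t 0) (a 0)))
  rw [List.all_eq_true] at h5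
  have h6 := h5 _ (List.mem_range.2 (key (t 1) (a 1)))
  rw [List.all_eq_true] at h6
  exact h6 _ (List.mem_range.2 (key (t 2) (a 2)))

lemma gco_eq {n : ℕ} (a : Cell n) (t : Fin 3 → Fin 3) (i : Fin n) (j : Fin 3) :
    gco n (t j) (if (t j : ℕ) = 0 then (a j : ℕ) else 0) i = (lineCell a t i j : ℕ) := by
  unfold lineCell
  rcases h : t j with ⟨v, hv⟩
  interval_cases v
  · simp [gco]
  · have h1 : ¬ ((⟨1, hv⟩ : Fin 3) = 0) := by intro h; exact absurd (congrArg Fin.val h) (by simp)
    simp [gco]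
  · have h1 : ¬ ((⟨2, hv⟩ : Fin 3) = 0) := by intro h; exact absurd (congrArg Fin.val h) (by simp)
    have h2 : ¬ ((⟨2, hv⟩ : Fin 3) = 1) := by intro h; exact absurd (congrArg Fin.val h) (by simp)
    simp only [h1, h2, if_false, Fin.val_rev, gco]
    omega

/-- a tree that passes the check gives a strong draw -/
theorem strongDraw_of_treeOK {n : ℕ} (hn : 0 < n) {F : T} (h : treeOK n F = true) :
    SecondForcesStrongDraw n := by
  have : Inhabited (Cell n) := ⟨fun _ => ⟨0, hn⟩⟩
  unfold treeOK at h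
  rw [Bool.and_eq_true, Bool.and_eq_true] at h
  obtain ⟨⟨hwf, hlt⟩, hbl⟩ := h
  have hlt' : T.cm F < 2 ^ (n * n * n) := by simpa using hlt
  have hbit : ∀ y, Nat.testBit (T.cm F) y = true → y < n * n * n := by
    intro y hy
    by_contra hcon
    have : T.cm F < 2 ^ y := lt_of_lt_of_le hlt' (Nat.pow_le_pow_right (by norm_num) (by omega))
    rw [Nat.testBit_lt_two_pow this] at hy
    simp at hy
  let P : Finset (Cell n) → Finset (Cell n) → Prop := fun M B =>
    (∀ c, c ∈ M → c ∉ B) ∧ T.inv (M.image code) (B.image code) F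
  have hmem : ∀ (M : Finset (Cell n)) (c : Cell n), code c ∈ M.image code ↔ c ∈ M := by
    intro M c
    rw [Finset.mem_image]
    constructor
    · rintro ⟨d, hd, hde⟩
      rw [← code_injective hde]; exact hd
    · intro hc; exact ⟨c, hc, rfl⟩
  have hdisj : ∀ M B : Finset (Cell n), (∀ c, c ∈ M → c ∉ B) →
      ∀ c, c ∈ M.image code → c ∉ B.image code := by
    intro M B hD c hc
    rw [Finset.mem_image] at hc
    obtain ⟨d, hd, rfl⟩ := hc
    rw [hmem]
    exact hD d hd
  obtain ⟨σ, hσ⟩ := exists_strategy P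
    ⟨by simp, by
      refine T.inv_of_untouched F 0 _ _ hwf ?_
      intro c _
      simp⟩
    (by
      intro M B x hP hxM hxB
      obtain ⟨hD, hI⟩ := hP
      rcases T.step F true 0 (M.image code) (B.image code) (code x) hwf (hdisj M B hD)
        (by rw [hmem]; exact hxM) (by rw [hmem]; exact hxB) hI with ⟨y, h1, h2, h3, h4, h5, h6⟩ | h1
      · left
        simp only [T.dom] at h4
        obtain ⟨y', rfl⟩ := code_surj (hbit y h4)
        rw [hmem] at h2 h3
        refine ⟨y', fun e => h1 (by rw [e]), h2, h3, ?_, ?_⟩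
        · intro c hc
          rw [Finset.mem_insert] at hc ⊢
          rintro (hcy | hcB)
          · rcases hc with rfl | hc
            · exact h1 (by rw [hcy])
            · exact h2 (hcy ▸ hc)
          · rcases hc with rfl | hc
            · exact hxB hcB
            · exact hD c hc hcB
        · rw [Finset.image_insert, Finset.image_insert]
          exact h6
      · right
        refine ⟨?_, ?_⟩
        · intro c hc
          rw [Finset.mem_insert] at hc
          rcases hc with rfl | hc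
          · exact hxB
          · exact hD c hc
        · rw [Finset.image_insert]; exact h1)
  refine ⟨σ, fun l hl => ?_⟩
  obtain ⟨h1, M, B, hM, hD, hI⟩ := hσ l hl.1 hl.2
  refine ⟨h1, ?_⟩
  rintro L ⟨a, t, ht, rfl⟩ hsub
  have hb := allBlocked_spec hbl a t ht
  obtain ⟨c, hc, hcM⟩ := T.blocks_sound F _ _ _ (hdisj M B hD) hI hb
  obtain ⟨i, hi, hic⟩ := testBit_foldr _ _ _ hc
  rw [List.mem_range] at hi
  have e0 := gco_eq a t ⟨i, hi⟩ 0
  have e1 := gco_eq a t ⟨i, hi⟩ 1
  have e2 := gco_eq a t ⟨i, hi⟩ 2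
  simp only at e0 e1 e2
  have hcode : code (lineCell a t ⟨i, hi⟩) = c := by
    unfold code
    rw [← hic, ← e0, ← e1, ← e2]
  apply hcM
  rw [← hcode, hmem, hM]
  exact hsub ⟨⟨i, hi⟩, rfl⟩

end Pool.Agent.MP_c0c4a4_co
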