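import Mathlib
import Pool.Agent.MP_c0c4a4_co.Defs
import Pool.Agent.MP_c0c4a4_co.Framework
import Pool.Agent.MP_c0c4a4_co.Board

/-!
A faster check of trees: all lines are treated at once by bit masks over the lines.
-/

namespace Pool.Agent.MP_c0c4a4_co

namespace T

/-- well-formedness together with the mask of the cells -/
def ck : Bool → ℕ → T → Option ℕ
  | true, _, nil => some 0
  | false, _, nil => none
  | true, _, stop => none
  | false, _, stop => some 0
  | false, _, pair _ _ _ => none
  | true, C, pair u v r =>
      match ck true C r with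
      | none => none
      | some m =>
        if (!(Nat.beq u v)) && (!(Nat.testBit m u)) && (!(Nat.testBit m v)) then
          some (2 ^ u ||| (2 ^ v ||| m)) else none
  | false, _, reg _ _ => none
  | true, C, reg p r =>
      match ck true C r with
      | none => none
      | some m =>
        match ck false (cm p) p with
        | none => none
        | some m' => if Nat.beq (m' &&& m) 0 then some (m' ||| m) else none
  | true, _, plan _ _ _ _ => none
  | false, C, plan x y s r =>
      match ck false C r with
      | none => none
      | some m =>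
        match ck true 0 s with
        | none => none
        | some ms =>
          if (!(Nat.beq x y)) && Nat.testBit C x && Nat.testBit C y && (Nat.beq (ms ||| C) C) &&
              (!(Nat.testBit ms x)) && (!(Nat.testBit ms y)) && (!(Nat.testBit m x)) then
            some (2 ^ x ||| m) else none

lemma beq_false_iff (a b : ℕ) : Nat.beq a b = false ↔ a ≠ b := by
  constructor
  · intro h e
    subst e
    have := Nat.beq_refl a
    rw [this] at h
    exact Bool.noConfusion h
  · intro h
    cases hb : Nat.beq a b
    · rfl
    · exact (h (Nat.eq_of_beq_eq_true hb)).elim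

lemma ck_spec : ∀ (t : T) (b : Bool) (C m : ℕ), ck b C t = some m →
    wf b C t = true ∧ m = cm t := by
  intro t
  induction t with
  | nil =>
    intro b C m h
    cases b
    · simp [ck] at h
    · simp only [ck, Option.some.injEq] at h
      exact ⟨rfl, h.symm⟩
  | stop =>
    intro b C m h
    cases b
    · simp only [ck, Option.some.injEq] at h
      exact ⟨rfl, h.symm⟩
    · simp [ck] at h
  | pair u v r ih =>
    intro b C m h
    cases b
    · simp [ck] at h
    · simp only [ck] at h
      split at h
      · simp at h
      · rename_i m' hm'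
        obtain ⟨h1, h2⟩ := ih true C m' hm'
        split at h
        · rename_i hc
          rw [Option.some.injEq] at h
          subst h2
          simp only [Bool.and_eq_true, Bool.not_eq_true', beq_false_iff] at hc
          refine ⟨?_, h.symm⟩
          simp only [wf, Bool.and_eq_true, Bool.not_eq_true', beq_eq_false_iff_ne]
          exact ⟨hc, h1⟩
        · simp at h
  | reg p r ihp ihr =>
    intro b C m h
    cases b
    · simp [ck] at h
    · simp only [ck] at h
      split at h
      · simp at h
      · rename_i m1 hm1
        obtain ⟨h1, h2⟩ := ihr true C m1 hm1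
        split at h
        · simp at h
        · rename_i m2 hm2
          obtain ⟨h3, h4⟩ := ihp false (cm p) m2 hm2
          split at h
          · rename_i hc
            rw [Option.some.injEq] at h
            subst h2
            subst h4
            refine ⟨?_, h.symm⟩
            simp only [wf, Bool.and_eq_true, beq_iff_eq]
            exact ⟨⟨Nat.eq_of_beq_eq_true hc, h3⟩, h1⟩
          · simp at h
  | plan x y s r ihs ihr =>
    intro b C m h
    cases b
    · simp only [ck] at h
      split at h
      · simp at h
      · rename_i m1 hm1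
        obtain ⟨h1, h2⟩ := ihr false C m1 hm1
        split at h
        · simp at h
        · rename_i m2 hm2
          obtain ⟨h3, h4⟩ := ihs true 0 m2 hm2
          split at h
          · rename_i hc
            rw [Option.some.injEq] at h
            subst h2
            subst h4
            simp only [Bool.and_eq_true, Bool.not_eq_true', beq_false_iff,
              Nat.beq_eq] at hc
            refine ⟨?_, h.symm⟩
            simp only [wf, Bool.and_eq_true, Bool.not_eq_true', beq_eq_false_iff_ne, beq_iff_eq]
            obtain ⟨⟨⟨⟨⟨⟨g1, g2⟩, g3⟩, g4⟩, g5⟩, g6⟩, g7⟩ := hc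
            exact ⟨⟨⟨⟨⟨⟨⟨⟨g1, g2⟩, g3⟩, g4⟩, g5⟩, g6⟩, g7⟩, h3⟩, h1⟩
          · simp at h
    · simp [ck] at h

/-- mask of the lines that meet the cells of a list of plans -/
def meet (inc : ℕ → ℕ) : T → ℕ
  | plan x _ _ r => inc x ||| meet inc r
  | _ => 0

/-- mask of the lines that are blocked -/
def bs (inc : ℕ → ℕ) (full : ℕ) : T → ℕ
  | nil => 0
  | stop => full
  | pair u v r => (inc u &&& inc v) ||| bs inc full r
  | reg p r => (meet inc p &&& bs inc full p) ||| bs inc full r
  | plan _ y s r => (inc y ||| bs inc full s) &&& bs inc full r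

lemma meet_spec (inc : ℕ → ℕ) (i L : ℕ)
    (hinc : ∀ c, Nat.testBit (inc c) i = true → Nat.testBit L c = true) :
    ∀ t : T, Nat.testBit (meet inc t) i = true →
      ∃ c, Nat.testBit (cm t) c = true ∧ Nat.testBit L c = true := by
  intro t
  induction t with
  | nil => intro h; simp [meet] at h
  | stop => intro h; simp [meet] at h
  | pair u v r ih => intro h; simp [meet] at h
  | reg p r ihp ihr => intro h; simp [meet] at h
  | plan x y s r ihs ihr =>
    intro h
    simp only [meet] at h
    rw [testBit_or_iff] at h
    rcases h with h | h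
    · refine ⟨x, ?_, hinc x h⟩
      simp only [cm]
      rw [testBit_or_iff, testBit_pow_iff]; exact Or.inl rfl
    · obtain ⟨c, h1, h2⟩ := ihr h
      refine ⟨c, ?_, h2⟩
      simp only [cm]
      rw [testBit_or_iff]; exact Or.inr h1

lemma bs_spec (inc : ℕ → ℕ) (full i L : ℕ)
    (hinc : ∀ c, Nat.testBit (inc c) i = true → Nat.testBit L c = true) :
    ∀ t : T, Nat.testBit (bs inc full t) i = true → blocks L t = true := by
  intro t
  induction t with
  | nil => intro h; simp [bs] at h
  | stop => intro _; rfl
  | pair u v r ih =>
    intro h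
    simp only [bs] at h
    rw [testBit_or_iff, testBit_and_iff] at h
    simp only [blocks, Bool.or_eq_true, Bool.and_eq_true]
    rcases h with h | h
    · exact Or.inl ⟨hinc u h.1, hinc v h.2⟩
    · exact Or.inr (ih h)
  | reg p r ihp ihr =>
    intro h
    simp only [bs] at h
    rw [testBit_or_iff, testBit_and_iff] at h
    simp only [blocks, Bool.or_eq_true, Bool.and_eq_true, Bool.not_eq_true', beq_eq_false_iff_ne]
    rcases h with h | h
    · left
      refine ⟨?_, ihp h.2⟩
      intro h0
      obtain ⟨c, h1, h2⟩ := meet_spec inc i L hinc p h.1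
      exact disj_of_and_eq h0 h1 h2
    · exact Or.inr (ihr h)
  | plan x y s r ihs ihr =>
    intro h
    simp only [bs] at h
    rw [testBit_and_iff, testBit_or_iff] at h
    simp only [blocks, Bool.or_eq_true, Bool.and_eq_true]
    refine ⟨?_, ihr h.2⟩
    rcases h.1 with h | h
    · exact Or.inl (hinc y h)
    · exact Or.inr (ihs h)

end T

/-- row of the packed incidence table: the mask of the lines through the cell `c` -/
def incOf (K IT c : ℕ) : ℕ := (IT >>> (K * c)) % 2 ^ K

/-- the incidence table is sound for the list of line masks -/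
def itOK (N K IT : ℕ) : ℕ → List ℕ → Bool
  | _, [] => true
  | i, L :: Ls => ((List.range N).all fun c => (!(Nat.testBit IT (K * c + i))) || Nat.testBit L c)
      && itOK N K IT (i + 1) Ls

lemma itOK_spec (N K IT : ℕ) : ∀ (Ls : List ℕ) (i : ℕ), itOK N K IT i Ls = true →
    ∀ (j : ℕ) (hj : j < Ls.length) (c : ℕ), c < N → Nat.testBit IT (K * c + (i + j)) = true →
      Nat.testBit Ls[j] c = true := by
  intro Ls
  induction Ls with
  | nil => intro i _ j hj; simp at hj
  | cons L Ls ih =>
    intro i h j hj c hc hb
    simp only [itOK, Bool.and_eq_true] at h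
    cases j with
    | zero =>
      have := List.all_eq_true.1 h.1 c (List.mem_range.2 hc)
      simp only [Bool.or_eq_true, Bool.not_eq_true'] at this
      rcases this with this | this
      · rw [Nat.add_zero] at hb
        rw [hb] at this
        simp at this
      · exact this
    | succ j =>
      have := ih (i + 1) h.2 j (by simpa using hj) c hc (by
        rw [show i + 1 + j = i + (j + 1) by omega]; exact hb)
      simpa using this

/-- every line mask occurs in the list -/
def allListed (n : ℕ) (Ls : List ℕ) : Bool :=
  (List.range 3).all fun t0 => (List.range 3).all fun t1 => (List.range 3).all fun t2 =>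
    ((t0 + t1 + t2) == 0) ||
    ((List.range (match t0 with | 0 => n | _ => 1)).all fun a0 =>
      (List.range (match t1 with | 0 => n | _ => 1)).all fun a1 =>
        (List.range (match t2 with | 0 => n | _ => 1)).all fun a2 =>
          Ls.any fun L => Nat.beq L (lmask n a0 a1 a2 t0 t1 t2))

/-- the complete fast check -/
def fastOK (n K IT : ℕ) (Ls : List ℕ) (F : T) : Bool :=
  (match T.ck true 0 F with
    | none => false
    | some m => Nat.blt m (2 ^ (n * n * n))) &&
  Nat.beq Ls.length K && itOK (n * n * n) K IT 0 Ls && allListed n Ls &&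
  Nat.blt IT (2 ^ (K * (n * n * n))) &&
  Nat.beq (T.bs (incOf K IT) (2 ^ K - 1) F) (2 ^ K - 1)

lemma testBit_incOf {K IT c i : ℕ} (h : Nat.testBit (incOf K IT c) i = true) :
    i < K ∧ Nat.testBit IT (K * c + i) = true := by
  unfold incOf at h
  rw [Nat.testBit_mod_two_pow, Bool.and_eq_true, decide_eq_true_eq, Nat.testBit_shiftRight] at h
  exact ⟨h.1, h.2⟩

theorem treeOK_of_fastOK {n K IT : ℕ} {Ls : List ℕ} {F : T} (h : fastOK n K IT Ls F = true) :
    treeOK n F = true := by
  unfold fastOK at h
  simp only [Bool.and_eq_true] at h
  obtain ⟨⟨⟨⟨⟨h1, h2⟩, h3⟩, h4⟩, h5⟩, h6⟩ := h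
  have hlen : Ls.length = K := Nat.eq_of_beq_eq_true h2
  have hbs : T.bs (incOf K IT) (2 ^ K - 1) F = 2 ^ K - 1 := Nat.eq_of_beq_eq_true h6
  have hIT : IT < 2 ^ (K * (n * n * n)) := by simpa using h5
  unfold treeOK
  simp only [Bool.and_eq_true]
  refine ⟨?_, ?_⟩
  · split at h1
    · simp at h1
    · rename_i m hm
      obtain ⟨g1, g2⟩ := T.ck_spec F true 0 m hm
      rw [← g2]
      exact ⟨g1, h1⟩
  · -- blocked
    have key : ∀ L, L ∈ Ls → T.blocks L F = true := by
      intro L hL
      obtain ⟨j, hj, rfl⟩ := List.mem_iff_getElem.1 hL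
      refine T.bs_spec (incOf K IT) (2 ^ K - 1) j Ls[j] ?_ F ?_
      · intro c hc
        obtain ⟨g1, g2⟩ := testBit_incOf hc
        have hcN : c < n * n * n := by
          by_contra hcon
          have hlt : IT < 2 ^ (K * c + j) := by
            refine lt_of_lt_of_le hIT (Nat.pow_le_pow_right (by norm_num) ?_)
            have : K * (n * n * n) ≤ K * c := Nat.mul_le_mul_left K (by omega)
            omega
          rw [Nat.testBit_lt_two_pow hlt] at g2
          simp at g2
        have := itOK_spec (n * n * n) K IT Ls 0 h3 j hj c hcN (by simpa using g2)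
        exact this
      · rw [hbs]
        have hjK : j < K := by omega
        rw [Nat.testBit_two_pow_sub_one]
        simpa using hjK
    unfold allBlocked
    unfold allListed at h4
    rw [List.all_eq_true] at h4 ⊢
    intro t0 ht0
    have h4' := h4 t0 ht0
    rw [List.all_eq_true] at h4' ⊢
    intro t1 ht1
    have h4'' := h4' t1 ht1
    rw [List.all_eq_true] at h4'' ⊢
    intro t2 ht2
    have h5' := h4'' t2 ht2
    rw [Bool.or_eq_true] at h5' ⊢
    rcases h5' with h5' | h5'
    · exact Or.inl h5'
    · right
      rw [List.all_eq_true] at h5' ⊢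
      intro a0 ha0
      have h6' := h5' a0 ha0
      rw [List.all_eq_true] at h6' ⊢
      intro a1 ha1
      have h7' := h6' a1 ha1
      rw [List.all_eq_true] at h7' ⊢
      intro a2 ha2
      have h8' := h7' a2 ha2
      rw [List.any_eq_true] at h8'
      obtain ⟨L, hL, hLe⟩ := h8'
      rw [← Nat.eq_of_beq_eq_true hLe]
      exact key L hL

/-- a fast checked tree gives a strong draw -/
theorem strongDraw_of_fastOK {n K IT : ℕ} {Ls : List ℕ} {F : T} (hn : 0 < n)
    (h : fastOK n K IT Ls F = true) : SecondForcesStrongDraw n :=
  strongDraw_of_treeOK hn (treeOK_of_fastOK h)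

/-- table lookup in a packed table with entries of 8 bits -/
def lk (tbl i : ℕ) : ℕ := (tbl >>> (8 * i)) % 256

/-- decoding of a packed tree: tokens of 17 bits, in reverse Polish order; `tbl` translates labels
into cells -/
def dec (tbl : ℕ) : ℕ → ℕ → List T → T
  | 0, _, st => st.headD T.nil
  | f + 1, N, st =>
    match (N % 8), st with
    | 0, st => dec tbl f (N >>> 17) (T.nil :: st)
    | 1, st => dec tbl f (N >>> 17) (T.stop :: st)
    | 2, r :: st => dec tbl f (N >>> 17)
        (T.pair (lk tbl ((N >>> 3) % 128)) (lk tbl ((N >>> 10) % 128)) r :: st)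
    | 3, p :: r :: st => dec tbl f (N >>> 17) (T.reg p r :: st)
    | 4, s :: r :: st => dec tbl f (N >>> 17)
        (T.plan (lk tbl ((N >>> 3) % 128)) (lk tbl ((N >>> 10) % 128)) s r :: st)
    | _, st => st.headD T.nil

/-- list of plans from packed data: each entry is `(x, y, number of tokens, packed forest)` -/
def mkPlans (tbl : ℕ) (l : List (ℕ × ℕ × ℕ × ℕ)) : T :=
  l.foldr (fun p q => T.plan (lk tbl p.1) (lk tbl p.2.1) (dec tbl p.2.2.1 p.2.2.2 []) q) T.stop

end Pool.Agent.MP_c0c4a4_co
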