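import Mathlib
import Pool.Agent.MP_c0c4a4_co.Defs
import Pool.Agent.MP_c0c4a4_co.Board
import Pool.Agent.MP_c0c4a4_co.Data7

/-!
The board of side 7.
-/

set_option autoImplicit false

namespace Pool.Agent.MP_c0c4a4_co

theorem seven_check : treeOK 7 Data7.tree = true := by decide +kernel

/-- In the game on the cube of side 7 the second player forces a strong draw. -/
theorem seven : SecondForcesStrongDraw 7 := strongDraw_of_treeOK (by norm_num) seven_check

end Pool.Agent.MP_c0c4a4_co
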