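import Mathlib
import Pool.Agent.MP_c0c4a4_co.Defs
import Pool.Agent.MP_c0c4a4_co.Board
import Pool.Agent.MP_c0c4a4_co.Fast
import Pool.Agent.MP_c0c4a4_co.Data6

/-!
The board of side 6.
-/

set_option autoImplicit false

namespace Pool.Agent.MP_c0c4a4_co

theorem six_check : fastOK 6 148 Data6.incTable Data6.lineMasks Data6.tree = true := by
  decide +kernel

/-- In the game on the cube of side 6 the second player forces a strong draw. -/
theorem six : SecondForcesStrongDraw 6 := strongDraw_of_fastOK (by norm_num) six_check

end Pool.Agent.MP_c0c4a4_co
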